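import Pool.Agent.Run7.h805.EF.Main

/-! # The range of the representation function of a basis of order two (helper805) -/

set_option autoImplicit false

namespace Run7.h805.EF

open Finset

theorem ineq (A : Set ℕ) (k K B δ : ℝ) (n0 : ℕ) (hk : ∀ n, n0 ≤ n → k ≤ rep A n)
    (hK : ∀ n, n0 ≤ n → (rep A n : ℝ) ≤ K) (hB : ∀ n, (rep A n : ℝ) ≤ B) (hB1 : 1 ≤ B)
    (hδ : δ = k - (K - k - 1) ^ 2 / 4) (hδ0 : 0 < δ) (ρ : ℝ) (h0 : 0 < ρ) (h1 : ρ ≤ 1) (L : ℕ)
    (hL : 1 ≤ L) (hT : (L : ℝ) * (ρ ^ L) ^ 2 ≤ 1) :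
    (∑ n ∈ range L, (ρ ^ n) ^ 2) * (δ / 2) ≤
      (1 + δ / (2 * B)) * (n0 * (B ^ 2 + |k + K| * B + |k * K|) + B ^ 2) +
      (1 + (δ / (2 * B))⁻¹) * (B ^ 2 * (3 + 2 * Real.log (2 * L : ℕ)) ^ 2) := by
  set W := ∑ n ∈ range L, (ρ ^ n) ^ 2 with hW
  set R := ∑ n ∈ range L, (rep A n : ℝ) * (ρ ^ n) ^ 2 with hR
  set Λ := 3 + 2 * Real.log (2 * L : ℕ) with hΛ
  set E := B ^ 2 + |k + K| * B + |k * K| with hE
  have hWpos : 0 < W := Finset.sum_pos (fun n _ => by positivity) ⟨0, mem_range.2 (by omega)⟩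
  have hR0 : 0 ≤ R := Finset.sum_nonneg fun _ _ => by positivity
  have hRB : R ≤ B * W := by
    rw [hR, hW, Finset.mul_sum]
    exact Finset.sum_le_sum fun n _ => mul_le_mul_of_nonneg_right (hB n) (by positivity)
  obtain ⟨c, hc⟩ : ∃ c, c = R / W := ⟨_, rfl⟩
  have hcW : c * W = R := by rw [hc]; field_simp
  have hc0 : 0 ≤ c := by rw [hc]; positivity
  have hcB : c ≤ B := by
    rw [hc, div_le_iff₀ hWpos]; exact hRB
  have hw1 : ∀ n, (ρ ^ n) ^ 2 ≤ 1 := fun n => pow_le_one₀ (by positivity) (pow_le_one₀ h0.le h1)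
  -- the variance
  set V := ∑ n ∈ range (2 * L), ((repL A L n : ℝ) * ρ ^ n -
        c * (if n < L then ρ ^ n else 0)) ^ 2 with hV
  have hV1 : V = ∑ n ∈ range L, ((rep A n : ℝ) - c) ^ 2 * (ρ ^ n) ^ 2 +
      ∑ x ∈ range L, ((repL A L (L + x) : ℝ) * ρ ^ (L + x)) ^ 2 := by
    rw [hV, two_mul, Finset.sum_range_add]
    congr 1
    · apply Finset.sum_congr rfl
      intro n hn
      rw [mem_range] at hn
      rw [if_pos hn, repL_eq A L n hn]
      ring
    · apply Finset.sum_congr rfl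
      intro n _
      rw [if_neg (by omega), mul_zero, sub_zero]
  have htail : ∑ x ∈ range L, ((repL A L (L + x) : ℝ) * ρ ^ (L + x)) ^ 2 ≤ B ^ 2 := by
    calc ∑ x ∈ range L, ((repL A L (L + x) : ℝ) * ρ ^ (L + x)) ^ 2
        ≤ ∑ x ∈ range L, B ^ 2 * (ρ ^ L) ^ 2 := by
          apply Finset.sum_le_sum
          intro x _
          rw [mul_pow]
          have e1 : (repL A L (L + x) : ℝ) ≤ B :=
            le_trans (by exact_mod_cast repL_le A L (L + x)) (hB _)
          have e2 : ρ ^ (L + x) ≤ ρ ^ L := pow_le_pow_of_le_one h0.le h1 (by omega)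
          gcongr
      _ = B ^ 2 * ((L : ℝ) * (ρ ^ L) ^ 2) := by
          rw [Finset.sum_const, card_range, nsmul_eq_mul]; ring
      _ ≤ B ^ 2 * 1 := by gcongr
      _ = B ^ 2 := mul_one _
  have hmain : ∑ n ∈ range L, ((rep A n : ℝ) - c) ^ 2 * (ρ ^ n) ^ 2 ≤ W * (c - δ) + n0 * E := by
    have hEt : ∀ n, ((rep A n : ℝ)) ^ 2 * (ρ ^ n) ^ 2 ≤
        ((k + K) * rep A n - k * K) * (ρ ^ n) ^ 2 + (if n < n0 then E else 0) := by
      intro n
      have hr0 : (0 : ℝ) ≤ rep A n := Nat.cast_nonneg _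
      split_ifs with hn
      · have e0 : ((rep A n : ℝ)) ^ 2 - ((k + K) * rep A n - k * K) ≤ E := by
          rw [hE]
          have e1 : ((rep A n : ℝ)) ^ 2 ≤ B ^ 2 := pow_le_pow_left₀ hr0 (hB n) 2
          have e2 : -((k + K) * rep A n) ≤ |k + K| * B := by
            calc -((k + K) * rep A n) ≤ |(k + K) * rep A n| := neg_le_abs _
              _ = |k + K| * rep A n := by rw [abs_mul, abs_of_nonneg hr0]
              _ ≤ _ := mul_le_mul_of_nonneg_left (hB n) (abs_nonneg _)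
          have e3 : k * K ≤ |k * K| := le_abs_self _
          linarith
        have hE0 : 0 ≤ E := by rw [hE]; positivity
        have e4 : (((rep A n : ℝ)) ^ 2 - ((k + K) * rep A n - k * K)) * (ρ ^ n) ^ 2 ≤ E := by
          calc _ ≤ E * (ρ ^ n) ^ 2 := mul_le_mul_of_nonneg_right e0 (by positivity)
            _ ≤ E * 1 := mul_le_mul_of_nonneg_left (hw1 n) hE0
            _ = E := mul_one _
        linarith
      · have e1 := hk n (by omega)
        have e2 := hK n (by omega)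
        have e3 : 0 ≤ ((rep A n : ℝ) - k) * (K - rep A n) :=
          mul_nonneg (by linarith) (by linarith)
        have e4 : ((rep A n : ℝ)) ^ 2 ≤ (k + K) * rep A n - k * K := by nlinarith
        rw [add_zero]
        exact mul_le_mul_of_nonneg_right e4 (by positivity)
    have hs := Finset.sum_le_sum fun n (_ : n ∈ range L) => hEt n
    rw [Finset.sum_add_distrib] at hs
    have hs2 : ∑ n ∈ range L, (if n < n0 then E else 0) ≤ n0 * E := by
      rw [← Finset.sum_filter, Finset.sum_const, nsmul_eq_mul]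
      have hE0 : 0 ≤ E := by rw [hE]; positivity
      apply mul_le_mul_of_nonneg_right _ hE0
      have : ((range L).filter (fun n => n < n0)).card ≤ n0 := by
        calc _ ≤ (range n0).card := by
              apply Finset.card_le_card
              intro x hx
              rw [mem_filter] at hx
              exact mem_range.2 hx.2
          _ = n0 := card_range _
      exact_mod_cast this
    have hs3 : ∑ n ∈ range L, ((k + K) * rep A n - k * K) * (ρ ^ n) ^ 2 =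
        (k + K) * R - k * K * W := by
      rw [hR, hW, Finset.mul_sum, Finset.mul_sum, ← Finset.sum_sub_distrib]
      exact Finset.sum_congr rfl fun n _ => by ring
    have hs4 : ∑ n ∈ range L, ((rep A n : ℝ) - c) ^ 2 * (ρ ^ n) ^ 2 =
        ∑ n ∈ range L, ((rep A n : ℝ)) ^ 2 * (ρ ^ n) ^ 2 - 2 * c * R + c ^ 2 * W := by
      rw [hR, hW, Finset.mul_sum, Finset.mul_sum, ← Finset.sum_sub_distrib,
        ← Finset.sum_add_distrib]
      exact Finset.sum_congr rfl fun n _ => by ring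
    rw [hs4]
    rw [hs3] at hs
    have hs5 : (k + K) * R - k * K * W - 2 * c * R + c ^ 2 * W ≤ W * (c - δ) := by
      rw [← hcW]
      have e1 : (k + K) * (c * W) - k * K * W - 2 * c * (c * W) + c ^ 2 * W =
          W * (c - δ) - W * (c - k - (K - k - 1) / 2) ^ 2 := by
        rw [hδ]; ring
      rw [e1]
      have : 0 ≤ W * (c - k - (K - k - 1) / 2) ^ 2 := by positivity
      linarith
    linarith
  have hVle : V ≤ W * (c - δ) + (n0 * E + B ^ 2) := by
    rw [hV1]; linarith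
  have hV0 : 0 ≤ V := Finset.sum_nonneg fun _ _ => sq_nonneg _
  -- the basic inequality
  have hb := basic A ρ h0.le h1 L hL c hc0
  rw [← hV, ← hΛ] at hb
  have hsq := sq_ge A ρ h0.le L
  rw [← hR, ← hcW] at hsq
  have hs0 : 0 ≤ ∑ r ∈ range L, ind A ρ r ^ 2 := Finset.sum_nonneg fun _ _ => sq_nonneg _
  have hsq2 : c * W ≤ (c * Λ + Real.sqrt V) ^ 2 := hsq.trans (pow_le_pow_left₀ hs0 hb 2)
  obtain ⟨ε, hε⟩ : ∃ ε, ε = δ / (2 * B) := ⟨_, rfl⟩
  have hε0 : 0 < ε := by rw [hε]; positivity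
  have hεB : ε * B = δ / 2 := by rw [hε]; field_simp
  rw [← hε]
  have hyoung : (c * Λ + Real.sqrt V) ^ 2 ≤ (1 + ε⁻¹) * (c * Λ) ^ 2 + (1 + ε) * V := by
    have e1 : Real.sqrt V ^ 2 = V := Real.sq_sqrt hV0
    have e2 : 2 * (c * Λ) * Real.sqrt V ≤ ε⁻¹ * (c * Λ) ^ 2 + ε * V := by
      have e3 : 0 ≤ ε⁻¹ * (c * Λ - ε * Real.sqrt V) ^ 2 := by positivity
      have e4 : ε⁻¹ * (c * Λ - ε * Real.sqrt V) ^ 2 =
          ε⁻¹ * (c * Λ) ^ 2 - 2 * (c * Λ) * Real.sqrt V + ε * Real.sqrt V ^ 2 := by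
        field_simp
        ring
      rw [e4, e1] at e3
      linarith
    calc (c * Λ + Real.sqrt V) ^ 2 = (c * Λ) ^ 2 + 2 * (c * Λ) * Real.sqrt V + Real.sqrt V ^ 2 := by
          ring
      _ ≤ _ := by rw [e1]; linarith
  have hcΛ : (c * Λ) ^ 2 ≤ B ^ 2 * Λ ^ 2 := by
    rw [mul_pow]
    exact mul_le_mul_of_nonneg_right (pow_le_pow_left₀ hc0 hcB 2) (sq_nonneg _)
  have h3 : (1 + ε⁻¹) * (c * Λ) ^ 2 ≤ (1 + ε⁻¹) * (B ^ 2 * Λ ^ 2) :=
    mul_le_mul_of_nonneg_left hcΛ (by positivity)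
  have h4 : (1 + ε) * V ≤ (1 + ε) * (W * (c - δ) + (n0 * E + B ^ 2)) :=
    mul_le_mul_of_nonneg_left hVle (by positivity)
  have h5 : W * (δ / 2) ≤ W * ((1 + ε) * δ - ε * c) := by
    apply mul_le_mul_of_nonneg_left _ hWpos.le
    have e1 : ε * c ≤ ε * B := mul_le_mul_of_nonneg_left hcB hε0.le
    have e2 : 0 ≤ ε * δ := by positivity
    linarith
  have h6 : c * W ≤ (1 + ε⁻¹) * (B ^ 2 * Λ ^ 2) +
      (1 + ε) * (W * (c - δ) + (n0 * E + B ^ 2)) := by linarith
  have h7 : (1 + ε) * (W * (c - δ) + (n0 * E + B ^ 2)) =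
      c * W - W * ((1 + ε) * δ - ε * c) + (1 + ε) * (n0 * E + B ^ 2) := by ring
  rw [h7] at h6
  linarith

theorem no_range (A : Set ℕ) (k K : ℝ) (n0 : ℕ) (hk : ∀ n, n0 ≤ n → k ≤ rep A n)
    (hK : ∀ n, n0 ≤ n → (rep A n : ℝ) ≤ K) (h : (K - k - 1) ^ 2 < 4 * k) : False := by
  obtain ⟨δ, hδ⟩ : ∃ δ, δ = k - (K - k - 1) ^ 2 / 4 := ⟨_, rfl⟩
  have hδ0 : 0 < δ := by rw [hδ]; linarith
  obtain ⟨B, hBd⟩ : ∃ B : ℝ, B = max K (n0 + 1) := ⟨_, rfl⟩
  have hB : ∀ n, (rep A n : ℝ) ≤ B := by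
    intro n
    rcases le_or_gt n0 n with hn | hn
    · exact (hK n hn).trans (by rw [hBd]; exact le_max_left _ _)
    · have h1 : (rep A n : ℝ) ≤ n + 1 := by exact_mod_cast rep_le A n
      have h2 : (n : ℝ) ≤ n0 := by exact_mod_cast hn.le
      have h3 : (n0 : ℝ) + 1 ≤ B := by rw [hBd]; exact le_max_right _ _
      linarith
  have hB1 : 1 ≤ B := by
    have h3 : (n0 : ℝ) + 1 ≤ B := by rw [hBd]; exact le_max_right _ _
    have : (0 : ℝ) ≤ n0 := Nat.cast_nonneg _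
    linarith
  set C2 := (1 + δ / (2 * B)) * (n0 * (B ^ 2 + |k + K| * B + |k * K|) + B ^ 2) with hC2
  set C3 := (1 + (δ / (2 * B))⁻¹) * B ^ 2 with hC3
  have hC30 : 0 ≤ C3 := by rw [hC3]; positivity
  have key : ∀ m : ℕ, 1 ≤ m → (m : ℝ) / 2 * (δ / 2) ≤
      C2 + C3 * (2 * (3 + 2 * Real.log 32) ^ 2 + 32 * Real.log m ^ 2) := by
    intro m hm
    have hmr : (1 : ℝ) ≤ m := by exact_mod_cast hm
    set ρ : ℝ := 1 - 1 / (4 * m) with hρ
    have hq : 1 / (4 * (m : ℝ)) ≤ 1 / 4 := by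
      apply div_le_div_of_nonneg_left (by norm_num) (by norm_num); linarith
    have hq0 : 0 < 1 / (4 * (m : ℝ)) := by positivity
    have hρ0 : 0 < ρ := by rw [hρ]; linarith
    have hρ1 : ρ ≤ 1 := by rw [hρ]; linarith
    set L := 16 * m ^ 2 with hL
    have hL1 : 1 ≤ L := by rw [hL]; nlinarith
    have hmL : m ≤ L := by rw [hL]; nlinarith
    have hT : (L : ℝ) * (ρ ^ L) ^ 2 ≤ 1 := by
      have e1 : ρ ^ L ≤ Real.exp (-(4 * m)) := by
        have e2 : ρ ≤ Real.exp (-(1 / (4 * m))) := by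
          have := Real.add_one_le_exp (-(1 / (4 * (m : ℝ))))
          rw [hρ]; linarith
        calc ρ ^ L ≤ (Real.exp (-(1 / (4 * m)))) ^ L := pow_le_pow_left₀ hρ0.le e2 _
          _ = Real.exp (-(4 * m)) := by
              rw [← Real.exp_nat_mul, hL]
              congr 1
              push_cast
              field_simp
              ring
      have e3 : (4 * m : ℝ) ≤ Real.exp (4 * m) := by
        have := Real.add_one_le_exp (4 * (m : ℝ))
        linarith
      have e4 : (ρ ^ L) ≤ 1 / (4 * m) := by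
        refine e1.trans ?_
        rw [Real.exp_neg, ← one_div]
        exact div_le_div_of_nonneg_left (by norm_num) (by positivity) e3
      calc (L : ℝ) * (ρ ^ L) ^ 2 ≤ (L : ℝ) * (1 / (4 * m)) ^ 2 := by
            gcongr
        _ = 1 := by
            rw [hL]; push_cast; field_simp; norm_num
    have hW : (m : ℝ) / 2 ≤ ∑ n ∈ range L, (ρ ^ n) ^ 2 := by
      calc (m : ℝ) / 2 = ∑ n ∈ range m, (1 / 2 : ℝ) := by
            rw [Finset.sum_const, card_range, nsmul_eq_mul]; ring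
        _ ≤ ∑ n ∈ range m, (ρ ^ n) ^ 2 := by
            apply Finset.sum_le_sum
            intro n hn
            rw [mem_range] at hn
            have hnr : (n : ℝ) ≤ m := by exact_mod_cast hn.le
            rw [← pow_mul]
            have e5 := one_add_mul_le_pow (a := -(1 / (4 * (m : ℝ)))) (by linarith) (n * 2)
            have e6 : 1 + -(1 / (4 * (m : ℝ))) = ρ := by rw [hρ]; ring
            rw [e6] at e5
            refine le_trans ?_ e5
            push_cast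
            have e7 : (n : ℝ) * 2 * (1 / (4 * m)) ≤ 1 / 2 := by
              rw [mul_one_div, div_le_iff₀ (by positivity)]
              linarith
            linarith
        _ ≤ _ := by
            apply Finset.sum_le_sum_of_subset_of_nonneg
            · intro x hx
              rw [mem_range] at hx ⊢
              omega
            · intro _ _ _; positivity
    have hi := ineq A k K B δ n0 hk hK hB hB1 hδ hδ0 ρ hρ0 hρ1 L hL1 hT
    have hlog : Real.log ((2 * L : ℕ) : ℝ) = Real.log 32 + 2 * Real.log m := by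
      have : ((2 * L : ℕ) : ℝ) = 32 * (m : ℝ) ^ 2 := by rw [hL]; push_cast; ring
      rw [this, Real.log_mul (by norm_num) (by positivity), Real.log_pow]
      norm_num
    rw [hlog] at hi
    have h8 : (m : ℝ) / 2 * (δ / 2) ≤ (∑ n ∈ range L, (ρ ^ n) ^ 2) * (δ / 2) :=
      mul_le_mul_of_nonneg_right hW (by positivity)
    have h9 : (3 + 2 * (Real.log 32 + 2 * Real.log (m : ℝ))) ^ 2 ≤
        2 * (3 + 2 * Real.log 32) ^ 2 + 32 * Real.log m ^ 2 := by
      nlinarith [sq_nonneg ((3 + 2 * Real.log 32) - 4 * Real.log (m : ℝ))]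
    have h10 : (1 + (δ / (2 * B))⁻¹) *
        (B ^ 2 * (3 + 2 * (Real.log 32 + 2 * Real.log (m : ℝ))) ^ 2) ≤
        C3 * (2 * (3 + 2 * Real.log 32) ^ 2 + 32 * Real.log m ^ 2) := by
      rw [hC3, mul_assoc]
      apply mul_le_mul_of_nonneg_left _ (by positivity)
      exact mul_le_mul_of_nonneg_left h9 (by positivity)
    linarith
  -- the contradiction
  have hlo := (Real.isLittleO_pow_log_id_atTop (n := 2)).def (c := δ / (16 * 32 * (C3 + 1)))
    (by positivity)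
  have hlo2 := (tendsto_natCast_atTop_atTop (R := ℝ)).eventually hlo
  have hbig : ∀ᶠ m : ℕ in Filter.atTop,
      16 / δ * (C2 + C3 * (2 * (3 + 2 * Real.log 32) ^ 2)) < (m : ℝ) :=
    (tendsto_natCast_atTop_atTop (R := ℝ)).eventually_gt_atTop _
  obtain ⟨m, ⟨hm1, hm2⟩, hm3⟩ := ((hlo2.and hbig).and (Filter.eventually_ge_atTop 1)).exists
  have h11 := key m hm3
  have hmr : (1 : ℝ) ≤ m := by exact_mod_cast hm3
  simp only [id, Real.norm_eq_abs, abs_pow, sq_abs] at hm1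
  rw [abs_of_nonneg (by linarith : (0 : ℝ) ≤ m)] at hm1
  have h12 : C3 * (32 * Real.log m ^ 2) ≤ δ / 16 * m := by
    have e1 : C3 * (32 * Real.log m ^ 2) ≤ C3 * (32 * (δ / (16 * 32 * (C3 + 1)) * m)) := by
      gcongr
    refine e1.trans ?_
    have e2 : C3 * (32 * (δ / (16 * 32 * (C3 + 1)) * m)) = (C3 / (C3 + 1)) * (δ / 16 * m) := by
      field_simp
    rw [e2]
    have e3 : C3 / (C3 + 1) ≤ 1 := by rw [div_le_one (by linarith)]; linarith
    calc _ ≤ 1 * (δ / 16 * m) := mul_le_mul_of_nonneg_right e3 (by positivity)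
      _ = _ := one_mul _
  have h13 : C2 + C3 * (2 * (3 + 2 * Real.log 32) ^ 2) < δ / 16 * m := by
    have e1 : 16 / δ * (C2 + C3 * (2 * (3 + 2 * Real.log 32) ^ 2)) * (δ / 16) < m * (δ / 16) :=
      mul_lt_mul_of_pos_right hm2 (by positivity)
    have e2 : 16 / δ * (C2 + C3 * (2 * (3 + 2 * Real.log 32) ^ 2)) * (δ / 16) =
        C2 + C3 * (2 * (3 + 2 * Real.log 32) ^ 2) := by field_simp
    rw [e2] at e1
    linarith
  nlinarith

/-- if `rep A n ≥ k` for all large `n`, then `rep A n ≥ k + 1 + 2 √k` for infinitely many `n` -/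
theorem gap (A : Set ℕ) (k : ℕ) (hk0 : 1 ≤ k) (hk : ∃ n₀ : ℕ, ∀ n, n₀ ≤ n → k ≤ rep A n) (N : ℕ) :
    ∃ n, N ≤ n ∧ (k : ℝ) + 1 + 2 * Real.sqrt k ≤ rep A n := by
  by_contra hcon
  push Not at hcon
  obtain ⟨n₀, hn₀⟩ := hk
  have hkr : (1 : ℝ) ≤ k := by exact_mod_cast hk0
  have hs : 1 ≤ Real.sqrt k := by rw [Real.one_le_sqrt]; exact hkr
  set K : ℕ := ⌈(k : ℝ) + 1 + 2 * Real.sqrt k⌉₊ - 1 with hK
  have hceil : (k : ℝ) + 1 + 2 * Real.sqrt k ≤ ⌈(k : ℝ) + 1 + 2 * Real.sqrt k⌉₊ := Nat.le_ceil _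
  have hcpos : 0 < ⌈(k : ℝ) + 1 + 2 * Real.sqrt k⌉₊ := Nat.ceil_pos.2 (by positivity)
  have hKlt : (K : ℝ) < (k : ℝ) + 1 + 2 * Real.sqrt k := by
    apply Nat.lt_ceil.1
    omega
  have hup : ∀ n, max n₀ N ≤ n → (rep A n : ℝ) ≤ K := by
    intro n hn
    have h1 := hcon n ((le_max_right _ _).trans hn)
    have h2 := Nat.lt_ceil.2 h1
    have h3 : rep A n ≤ K := by omega
    exact_mod_cast h3
  have hlow : ∀ n, max n₀ N ≤ n → (k : ℝ) ≤ rep A n := by
    intro n hn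
    exact_mod_cast hn₀ n ((le_max_left _ _).trans hn)
  refine no_range A k K (max n₀ N) hlow hup ?_
  have hkK : (k : ℝ) ≤ K := (hlow _ le_rfl).trans (hup _ le_rfl)
  have h4 : (4 : ℝ) * k = (2 * Real.sqrt k) ^ 2 := by
    rw [mul_pow, Real.sq_sqrt (by linarith)]; norm_num
  rw [h4]
  apply sq_lt_sq'
  · linarith
  · linarith

end Run7.h805.EF
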