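import Pool.Agent.Run7.h805.EF.Par

/-! # The representation function of a set of natural numbers has a large variance (helper805) -/

set_option autoImplicit false

namespace Run7.h805.EF

open Finset

/-- the number of the ordered pairs of elements of `A` with sum `n` -/
noncomputable def rep (A : Set ℕ) (n : ℕ) : ℕ :=
  Set.ncard {p : ℕ × ℕ | p.1 ∈ A ∧ p.2 ∈ A ∧ p.1 + p.2 = n}

open Classical in
/-- the same with both elements less than `L` -/
noncomputable def repL (A : Set ℕ) (L n : ℕ) : ℕ :=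
  ((range L ×ˢ range L).filter (fun p => p.1 ∈ A ∧ p.2 ∈ A ∧ p.1 + p.2 = n)).card

theorem rep_set_finite (A : Set ℕ) (n : ℕ) :
    {p : ℕ × ℕ | p.1 ∈ A ∧ p.2 ∈ A ∧ p.1 + p.2 = n}.Finite := by
  apply Set.Finite.subset (antidiagonal n).finite_toSet
  rintro p ⟨-, -, h⟩
  simpa using h

theorem repL_le (A : Set ℕ) (L n : ℕ) : repL A L n ≤ rep A n := by
  classical
  rw [rep, repL, ← Set.ncard_coe_finset]
  apply Set.ncard_le_ncard _ (rep_set_finite A n)
  intro p hp
  rw [Finset.mem_coe, mem_filter] at hp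
  exact hp.2

theorem repL_eq (A : Set ℕ) (L n : ℕ) (h : n < L) : repL A L n = rep A n := by
  classical
  rw [rep, repL, ← Set.ncard_coe_finset]
  congr 1
  ext p
  rw [Finset.mem_coe, mem_filter, mem_product, mem_range, mem_range, Set.mem_ofPred_eq]
  constructor
  · exact fun hp => hp.2
  · intro hp
    exact ⟨⟨by omega, by omega⟩, hp⟩

theorem rep_le (A : Set ℕ) (n : ℕ) : rep A n ≤ n + 1 := by
  classical
  have h : {p : ℕ × ℕ | p.1 ∈ A ∧ p.2 ∈ A ∧ p.1 + p.2 = n} ⊆ (antidiagonal n : Finset (ℕ × ℕ)) := by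
    rintro p ⟨-, -, h⟩
    simpa using h
  have h2 := Set.ncard_le_ncard h (antidiagonal n).finite_toSet
  rw [Set.ncard_coe_finset, Finset.Nat.card_antidiagonal] at h2
  exact h2

open Classical in
/-- the weighted indicator function -/
noncomputable def ind (A : Set ℕ) (ρ : ℝ) (r : ℕ) : ℝ := if r ∈ A then ρ ^ r else 0

theorem sq_expand (A : Set ℕ) (ρ : ℝ) (L : ℕ) (z : ℂ) :
    (∑ r ∈ range L, (ind A ρ r : ℂ) * z ^ r) ^ 2 =
      ∑ n ∈ range (2 * L), ((repL A L n : ℝ) * ρ ^ n : ℝ) * z ^ n := by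
  classical
  rw [sq, Finset.sum_mul_sum, ← Finset.sum_product']
  rw [← Finset.sum_fiberwise_of_maps_to (s := range L ×ˢ range L) (t := range (2 * L))
    (g := fun p => p.1 + p.2)]
  · apply Finset.sum_congr rfl
    intro n _
    have h1 : ∀ p ∈ (range L ×ˢ range L).filter (fun p : ℕ × ℕ => p.1 + p.2 = n),
        (ind A ρ p.1 : ℂ) * z ^ p.1 * ((ind A ρ p.2 : ℂ) * z ^ p.2) =
          if p.1 ∈ A ∧ p.2 ∈ A then (ρ : ℂ) ^ n * z ^ n else 0 := by
      intro p hp
      rw [mem_filter] at hp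
      rw [← hp.2]
      unfold ind
      by_cases ha : p.1 ∈ A
      · by_cases hb : p.2 ∈ A
        · rw [if_pos ha, if_pos hb, if_pos ⟨ha, hb⟩]
          push_cast; rw [pow_add, pow_add]; ring
        · simp [hb]
      · simp [ha]
    rw [Finset.sum_congr rfl h1, ← Finset.sum_filter, Finset.filter_filter, Finset.sum_const,
      nsmul_eq_mul, repL]
    push_cast
    rw [mul_assoc]
    congr 2
    congr 1
    ext p
    simp only [mem_filter]
    tauto
  · rintro ⟨i, k⟩ hp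
    rw [mem_product, mem_range, mem_range] at hp
    rw [mem_range]
    simp only at hp ⊢
    omega

/-- the basic inequality -/
theorem basic (A : Set ℕ) (ρ : ℝ) (h0 : 0 ≤ ρ) (h1 : ρ ≤ 1) (L : ℕ) (hL : 1 ≤ L) (c : ℝ)
    (hc : 0 ≤ c) :
    ∑ r ∈ range L, ind A ρ r ^ 2 ≤ c * (3 + 2 * Real.log (2 * L : ℕ)) +
      Real.sqrt (∑ n ∈ range (2 * L), ((repL A L n : ℝ) * ρ ^ n -
        c * (if n < L then ρ ^ n else 0)) ^ 2) := by
  set M := 2 * L with hM
  have hM0 : M ≠ 0 := by omega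
  have hMpos : (0 : ℝ) < M := by exact_mod_cast (by omega : 0 < M)
  have hext : ∀ (g : ℕ → ℂ) (j : ℕ), ∑ r ∈ range M, (if r < L then g r else 0) * om M ^ (r * j) =
      ∑ r ∈ range L, g r * om M ^ (r * j) := by
    intro g j
    rw [hM, two_mul, Finset.sum_range_add]
    have e1 : ∑ x ∈ range L, (if L + x < L then g (L + x) else 0) *
        om (L + L) ^ ((L + x) * j) = 0 := by
      apply Finset.sum_eq_zero
      intro x _
      rw [if_neg (by omega), zero_mul]
    rw [e1, add_zero]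
    apply Finset.sum_congr rfl
    intro x hx
    rw [mem_range] at hx
    rw [if_pos hx]
  -- Parseval for `F`
  have hP := parseval M hM0 (fun r => if r < L then (ind A ρ r : ℂ) else 0)
  simp only [hext] at hP
  have hPs : ∑ r ∈ range M, ‖(if r < L then (ind A ρ r : ℂ) else 0)‖ ^ 2 =
      ∑ r ∈ range L, ind A ρ r ^ 2 := by
    rw [hM, two_mul, Finset.sum_range_add]
    have e1 : ∑ x ∈ range L, ‖(if L + x < L then (ind A ρ (L + x) : ℂ) else 0)‖ ^ 2 = 0 := by
      apply Finset.sum_eq_zero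
      intro x _
      rw [if_neg (by omega), norm_zero]
      norm_num
    rw [e1, add_zero]
    apply Finset.sum_congr rfl
    intro x hx
    rw [mem_range] at hx
    rw [if_pos hx, Complex.norm_real, Real.norm_eq_abs, sq_abs]
  rw [hPs] at hP
  -- pointwise
  have hpt : ∀ j ∈ range M, ‖∑ r ∈ range L, (ind A ρ r : ℂ) * om M ^ (r * j)‖ ^ 2 ≤
      c * ‖∑ r ∈ range L, (ρ : ℂ) ^ r * om M ^ (r * j)‖ +
      ‖∑ n ∈ range M, (((repL A L n : ℝ) * ρ ^ n -
        c * (if n < L then ρ ^ n else 0) : ℝ) : ℂ) * om M ^ (n * j)‖ := by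
    intro j _
    rw [← norm_pow]
    have e1 : ∀ r, om M ^ (r * j) = (om M ^ j) ^ r := fun r => by rw [mul_comm, pow_mul]
    have e2 := sq_expand A ρ L (om M ^ j)
    simp only [← e1] at e2
    rw [e2]
    have e3 : ∑ n ∈ range (2 * L), (((repL A L n : ℝ) * ρ ^ n : ℝ) : ℂ) * om M ^ (n * j) =
        (c : ℂ) * ∑ r ∈ range L, (ρ : ℂ) ^ r * om M ^ (r * j) +
        ∑ n ∈ range M, (((repL A L n : ℝ) * ρ ^ n -
          c * (if n < L then ρ ^ n else 0) : ℝ) : ℂ) * om M ^ (n * j) := by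
      rw [← hext (fun r => (ρ : ℂ) ^ r) j, Finset.mul_sum, ← Finset.sum_add_distrib, ← hM]
      apply Finset.sum_congr rfl
      intro n _
      split_ifs
      · push_cast; ring
      · push_cast; ring
    rw [e3]
    refine (norm_add_le _ _).trans ?_
    rw [norm_mul, Complex.norm_real, Real.norm_of_nonneg hc]
  have hsum := Finset.sum_le_sum hpt
  rw [hP, Finset.sum_add_distrib, ← Finset.mul_sum] at hsum
  have hG := geom_mean ρ h0 h1 L M (by omega) (by omega)
  have hH := mean_le M hM0 (fun n => (((repL A L n : ℝ) * ρ ^ n -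
          c * (if n < L then ρ ^ n else 0) : ℝ) : ℂ))
  simp only [Complex.norm_real, Real.norm_eq_abs, sq_abs] at hH
  have hfin : (M : ℝ) * ∑ r ∈ range L, ind A ρ r ^ 2 ≤ M * (c * (3 + 2 * Real.log M) +
      Real.sqrt (∑ n ∈ range M, ((repL A L n : ℝ) * ρ ^ n -
        c * (if n < L then ρ ^ n else 0)) ^ 2)) := by
    refine hsum.trans ?_
    have := mul_le_mul_of_nonneg_left hG hc
    calc _ ≤ c * (M * (3 + 2 * Real.log M)) + M * Real.sqrt (∑ n ∈ range M,
            ((repL A L n : ℝ) * ρ ^ n - c * (if n < L then ρ ^ n else 0)) ^ 2) :=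
          add_le_add this hH
      _ = _ := by ring
  exact le_of_mul_le_mul_left hfin hMpos

/-- the square of the sum of the weights -/
theorem sq_ge (A : Set ℕ) (ρ : ℝ) (h0 : 0 ≤ ρ) (L : ℕ) :
    ∑ n ∈ range L, (rep A n : ℝ) * (ρ ^ n) ^ 2 ≤ (∑ r ∈ range L, ind A ρ r ^ 2) ^ 2 := by
  have h := sq_expand A ρ L (ρ : ℂ)
  have h1 : ∀ r, (ind A ρ r : ℂ) * (ρ : ℂ) ^ r = ((ind A ρ r ^ 2 : ℝ) : ℂ) := by
    intro r
    unfold ind
    split_ifs
    · push_cast; ring
    · push_cast; ring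
  simp only [h1] at h
  have h2 : (∑ r ∈ range L, ind A ρ r ^ 2) ^ 2 =
      ∑ n ∈ range (2 * L), ((repL A L n : ℝ) * ρ ^ n) * ρ ^ n := by
    have := h
    rw [← Complex.ofReal_sum, ← Complex.ofReal_pow] at this
    have h3 : ∑ n ∈ range (2 * L), (((repL A L n : ℝ) * ρ ^ n : ℝ) : ℂ) * (ρ : ℂ) ^ n =
        ((∑ n ∈ range (2 * L), ((repL A L n : ℝ) * ρ ^ n) * ρ ^ n : ℝ) : ℂ) := by
      push_cast; rfl
    rw [h3] at this
    exact Complex.ofReal_injective this
  rw [h2, two_mul, Finset.sum_range_add]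
  have h4 : 0 ≤ ∑ x ∈ range L, ((repL A L (L + x) : ℝ) * ρ ^ (L + x)) * ρ ^ (L + x) :=
    Finset.sum_nonneg fun _ _ => by positivity
  have h5 : ∑ n ∈ range L, (rep A n : ℝ) * (ρ ^ n) ^ 2 =
      ∑ n ∈ range L, ((repL A L n : ℝ) * ρ ^ n) * ρ ^ n := by
    apply Finset.sum_congr rfl
    intro n hn
    rw [repL_eq A L n (mem_range.1 hn)]
    ring
  linarith

end Run7.h805.EF
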