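import Mathlib

/-! # Finite Parseval identity and the discrete `L^1` norm of a geometric sum (helper805) -/

set_option autoImplicit false

namespace Run7.h805.EF

open Finset

/-- the root of unity `exp (2 π i / n)` -/
noncomputable def om (n : ℕ) : ℂ := Complex.exp (2 * Real.pi * Complex.I / n)

theorem prim (n : ℕ) (hn : n ≠ 0) : IsPrimitiveRoot (om n) n :=
  Complex.isPrimitiveRoot_exp n hn

theorem om_pow_n (n : ℕ) (hn : n ≠ 0) : om n ^ n = 1 := (prim n hn).pow_eq_one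

theorem om_ne (n : ℕ) : om n ≠ 0 := Complex.exp_ne_zero _

theorem norm_om (n : ℕ) (hn : n ≠ 0) : ‖om n‖ = 1 :=
  Complex.norm_eq_one_of_pow_eq_one (om_pow_n n hn) hn

theorem conj_pow (n : ℕ) (hn : n ≠ 0) (k : ℕ) :
    (starRingEnd ℂ) (om n ^ k) = (om n ^ k)⁻¹ := by
  rw [Complex.inv_eq_conj]
  rw [norm_pow, norm_om n hn, one_pow]

theorem orth (n : ℕ) (hn : n ≠ 0) (r s : ℕ) (hr : r < n) (hs : s < n) :
    ∑ j ∈ range n, om n ^ (r * j) * (starRingEnd ℂ) (om n ^ (s * j)) =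
      if r = s then (n : ℂ) else 0 := by
  have h1 : ∀ j, om n ^ (r * j) * (starRingEnd ℂ) (om n ^ (s * j)) =
      (om n ^ r * (om n ^ s)⁻¹) ^ j := by
    intro j
    rw [conj_pow n hn, mul_pow, inv_pow, ← pow_mul, ← pow_mul]
  simp only [h1]
  split_ifs with h
  · subst h
    rw [mul_inv_cancel₀ (pow_ne_zero _ (om_ne n))]
    simp
  · have h2 : om n ^ r * (om n ^ s)⁻¹ ≠ 1 := by
      intro h3
      apply h
      have h4 : om n ^ r = om n ^ s := by
        rw [mul_inv_eq_one₀ (pow_ne_zero _ (om_ne n))] at h3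
        exact h3
      exact (prim n hn).pow_inj hr hs h4
    rw [geom_sum_eq h2]
    have h3 : (om n ^ r * (om n ^ s)⁻¹) ^ n = 1 := by
      rw [mul_pow, inv_pow, ← pow_mul, ← pow_mul, mul_comm r n, mul_comm s n, pow_mul, pow_mul,
        om_pow_n n hn]
      simp
    rw [h3, sub_self, zero_div]

theorem parseval (n : ℕ) (hn : n ≠ 0) (V : ℕ → ℂ) :
    ∑ j ∈ range n, ‖∑ r ∈ range n, V r * om n ^ (r * j)‖ ^ 2 =
      (n : ℝ) * ∑ r ∈ range n, ‖V r‖ ^ 2 := by
  apply Complex.ofReal_injective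
  push_cast
  have h1 : ∀ z : ℂ, ((‖z‖ : ℂ)) ^ 2 = z * (starRingEnd ℂ) z := fun z => (Complex.mul_conj' z).symm
  simp only [h1]
  have h2 : ∀ j, (∑ r ∈ range n, V r * om n ^ (r * j)) *
      (starRingEnd ℂ) (∑ r ∈ range n, V r * om n ^ (r * j)) =
      ∑ r ∈ range n, ∑ s ∈ range n, (V r * (starRingEnd ℂ) (V s)) *
        (om n ^ (r * j) * (starRingEnd ℂ) (om n ^ (s * j))) := by
    intro j
    rw [map_sum, Finset.sum_mul_sum]
    refine Finset.sum_congr rfl fun r _ => Finset.sum_congr rfl fun s _ => ?_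
    rw [map_mul]
    ring
  simp only [h2]
  rw [Finset.sum_comm, Finset.mul_sum]
  refine Finset.sum_congr rfl fun r hr => ?_
  rw [Finset.sum_comm]
  rw [Finset.mem_range] at hr
  have h3 : ∀ s ∈ range n, ∑ j ∈ range n, (V r * (starRingEnd ℂ) (V s)) *
        (om n ^ (r * j) * (starRingEnd ℂ) (om n ^ (s * j))) =
      if r = s then (V r * (starRingEnd ℂ) (V s)) * (n : ℂ) else 0 := by
    intro s hs
    rw [Finset.mem_range] at hs
    rw [← Finset.mul_sum, orth n hn r s hr hs]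
    split_ifs <;> simp
  rw [Finset.sum_congr rfl h3, Finset.sum_ite_eq, if_pos (Finset.mem_range.mpr hr)]
  ring

/-- the mean of the absolute values of a trigonometric polynomial is at most the `ℓ²` norm of its
coefficients -/
theorem mean_le (n : ℕ) (hn : n ≠ 0) (V : ℕ → ℂ) :
    ∑ j ∈ range n, ‖∑ r ∈ range n, V r * om n ^ (r * j)‖ ≤
      (n : ℝ) * Real.sqrt (∑ r ∈ range n, ‖V r‖ ^ 2) := by
  have h1 := Finset.sum_mul_sq_le_sq_mul_sq (range n) (fun _ => (1 : ℝ))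
    (fun j => ‖∑ r ∈ range n, V r * om n ^ (r * j)‖)
  simp only [one_mul, one_pow, Finset.sum_const, card_range, nsmul_eq_mul, mul_one] at h1
  rw [parseval n hn V] at h1
  have h2 : (n : ℝ) * ((n : ℝ) * ∑ r ∈ range n, ‖V r‖ ^ 2) =
      ((n : ℝ) * Real.sqrt (∑ r ∈ range n, ‖V r‖ ^ 2)) ^ 2 := by
    rw [mul_pow, Real.sq_sqrt (Finset.sum_nonneg fun _ _ => by positivity)]
    ring
  rw [h2] at h1
  exact abs_le_of_sq_le_sq' h1 (by positivity) |>.2

/-- lower bound for `|1 - z|`, `z = om M ^ j` -/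
theorem norm_one_sub (M : ℕ) (j : ℕ) (hj : 1 ≤ j) (hjM : j < M) :
    4 * (min (j : ℝ) (M - j)) / M ≤ ‖1 - om M ^ j‖ := by
  have hM : (0 : ℝ) < M := by exact_mod_cast (by omega : 0 < M)
  have hjr : (1 : ℝ) ≤ j := by exact_mod_cast hj
  have hjM' : (j : ℝ) < M := by exact_mod_cast hjM
  have e1 : om M ^ j = Complex.exp (Complex.I * ((2 * Real.pi * j / M : ℝ) : ℂ)) := by
    rw [om, ← Complex.exp_nat_mul]
    congr 1
    push_cast
    ring
  rw [norm_sub_rev, e1, Complex.norm_exp_I_mul_ofReal_sub_one, Real.norm_eq_abs]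
  have hpi := Real.pi_pos
  have e2 : 2 * Real.pi * (j : ℝ) / M / 2 = Real.pi * (j / M) := by ring
  rw [e2]
  have hx0 : 0 < (j : ℝ) / M := by positivity
  have hx1 : (j : ℝ) / M < 1 := by rw [div_lt_one hM]; exact hjM'
  have key : 2 * (min (j : ℝ) (M - j)) / M ≤ Real.sin (Real.pi * (j / M)) := by
    rcases le_total ((j : ℝ) / M) (1 / 2) with h | h
    · have h1 := Real.mul_le_sin (x := Real.pi * (j / M)) (by positivity) (by
        nlinarith)
      have h2 : 2 / Real.pi * (Real.pi * ((j : ℝ) / M)) = 2 * j / M := by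
        field_simp
      rw [h2] at h1
      refine le_trans ?_ h1
      gcongr
      exact min_le_left _ _
    · have h1 := Real.mul_le_sin (x := Real.pi - Real.pi * (j / M)) (by nlinarith) (by nlinarith)
      rw [Real.sin_pi_sub] at h1
      have h2 : 2 / Real.pi * (Real.pi - Real.pi * ((j : ℝ) / M)) = 2 * (M - j) / M := by
        field_simp
      rw [h2] at h1
      refine le_trans ?_ h1
      gcongr
      exact min_le_right _ _
  have h3 : (0 : ℝ) ≤ Real.sin (Real.pi * (j / M)) := by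
    apply Real.sin_nonneg_of_nonneg_of_le_pi (by positivity)
    nlinarith
  rw [abs_of_nonneg (by positivity)]
  calc 4 * (min (j : ℝ) (M - j)) / M = 2 * (2 * (min (j : ℝ) (M - j)) / M) := by ring
    _ ≤ _ := by gcongr

/-- a geometric sum at a point of the unit circle -/
theorem geom_bound (ρ : ℝ) (h0 : 0 ≤ ρ) (h1 : ρ ≤ 1) (L M j : ℕ) (hj : 1 ≤ j) (hjM : j < M) :
    ‖∑ r ∈ range L, (ρ : ℂ) ^ r * om M ^ (r * j)‖ ≤ M / j + M / (M - j) := by
  have hM : (0 : ℝ) < M := by exact_mod_cast (by omega : 0 < M)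
  have hjr : (1 : ℝ) ≤ j := by exact_mod_cast hj
  have hjM' : (j : ℝ) < M := by exact_mod_cast hjM
  have hM0 : M ≠ 0 := by omega
  set z := om M ^ j with hz
  have hz1 : ‖z‖ = 1 := by rw [hz, norm_pow, norm_om M hM0, one_pow]
  have e1 : ∀ r, (ρ : ℂ) ^ r * om M ^ (r * j) = ((ρ : ℂ) * z) ^ r := by
    intro r
    rw [mul_pow, hz, ← pow_mul, mul_comm r j]
  simp only [e1]
  have hlow := norm_one_sub M j hj hjM
  rw [← hz] at hlow
  have hmin : 0 < min (j : ℝ) (M - j) := by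
    apply lt_min <;> linarith
  have hpos : 0 < ‖1 - z‖ := lt_of_lt_of_le (by positivity) hlow
  have hrz : ‖1 - z‖ ≤ 2 * ‖1 - (ρ : ℂ) * z‖ := by
    have h2 : ‖(ρ : ℂ) * z‖ = ρ := by rw [norm_mul, hz1, mul_one, Complex.norm_real,
      Real.norm_of_nonneg h0]
    have h3 : 1 - ρ ≤ ‖1 - (ρ : ℂ) * z‖ := by
      have := norm_sub_norm_le (1 : ℂ) ((ρ : ℂ) * z)
      rw [norm_one, h2] at this
      exact this
    have h4 : ‖1 - z‖ ≤ ‖1 - (ρ : ℂ) * z‖ + ‖(ρ : ℂ) * z - z‖ := by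
      have := norm_add_le (1 - (ρ : ℂ) * z) ((ρ : ℂ) * z - z)
      simpa using this
    have h5 : ‖(ρ : ℂ) * z - z‖ = 1 - ρ := by
      have : (ρ : ℂ) * z - z = ((ρ - 1 : ℝ) : ℂ) * z := by push_cast; ring
      rw [this, norm_mul, hz1, mul_one, Complex.norm_real, Real.norm_eq_abs, abs_sub_comm,
        abs_of_nonneg (by linarith)]
    linarith
  have hne : (ρ : ℂ) * z ≠ 1 := by
    intro h
    rw [h, sub_self, norm_zero] at hrz
    linarith
  have hpos2 : 0 < ‖1 - (ρ : ℂ) * z‖ := by linarith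
  rw [geom_sum_eq hne, norm_div, norm_sub_rev ((ρ : ℂ) * z) 1]
  have hnum : ‖((ρ : ℂ) * z) ^ L - 1‖ ≤ 2 := by
    refine (norm_sub_le _ _).trans ?_
    rw [norm_pow, norm_mul, hz1, mul_one, Complex.norm_real, Real.norm_of_nonneg h0, norm_one]
    have := pow_le_one₀ (n := L) h0 h1
    linarith
  have h6 : ‖((ρ : ℂ) * z) ^ L - 1‖ / ‖1 - (ρ : ℂ) * z‖ ≤ M / min (j : ℝ) (M - j) := by
    rw [div_le_div_iff₀ hpos2 hmin]
    have h7 : 4 * (min (j : ℝ) (M - j)) ≤ M * ‖1 - z‖ := by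
      rw [div_le_iff₀ hM] at hlow
      linarith
    calc ‖((ρ : ℂ) * z) ^ L - 1‖ * min (j : ℝ) (M - j) ≤ 2 * min (j : ℝ) (M - j) := by gcongr
      _ ≤ M * ‖1 - z‖ / 2 := by linarith
      _ ≤ M * ‖1 - (ρ : ℂ) * z‖ := by nlinarith
  refine h6.trans ?_
  rcases min_choice (j : ℝ) (M - j) with h | h
  · rw [h]
    have : 0 ≤ (M : ℝ) / (M - j) := div_nonneg hM.le (by linarith)
    linarith
  · rw [h]
    have : 0 ≤ (M : ℝ) / j := by positivity
    linarith

/-- the discrete `L^1` norm of the geometric sum -/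
theorem geom_mean (ρ : ℝ) (h0 : 0 ≤ ρ) (h1 : ρ ≤ 1) (L M : ℕ) (hL : L ≤ M) (hM : 2 ≤ M) :
    ∑ j ∈ range M, ‖∑ r ∈ range L, (ρ : ℂ) ^ r * om M ^ (r * j)‖ ≤
      M * (3 + 2 * Real.log M) := by
  obtain ⟨m, rfl⟩ : ∃ m, M = m + 1 := ⟨M - 1, by omega⟩
  rw [Finset.sum_range_succ']
  have hzero : ‖∑ r ∈ range L, (ρ : ℂ) ^ r * om (m + 1) ^ (r * 0)‖ ≤ ((m + 1 : ℕ) : ℝ) := by
    refine (norm_sum_le _ _).trans ?_
    calc ∑ r ∈ range L, ‖(ρ : ℂ) ^ r * om (m + 1) ^ (r * 0)‖ ≤ ∑ r ∈ range L, (1 : ℝ) := by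
          apply Finset.sum_le_sum
          intro r _
          rw [mul_zero, pow_zero, mul_one, norm_pow, Complex.norm_real, Real.norm_of_nonneg h0]
          exact pow_le_one₀ h0 h1
      _ = L := by simp
      _ ≤ _ := by exact_mod_cast hL
  have hrest : ∀ j ∈ range m, ‖∑ r ∈ range L, (ρ : ℂ) ^ r * om (m + 1) ^ (r * (j + 1))‖ ≤
      ((m + 1 : ℕ) : ℝ) * ((j + 1 : ℝ))⁻¹ + ((m + 1 : ℕ) : ℝ) * (((m - j : ℕ) : ℝ))⁻¹ := by
    intro j hj
    rw [mem_range] at hj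
    have := geom_bound ρ h0 h1 L (m + 1) (j + 1) (by omega) (by omega)
    refine this.trans (le_of_eq ?_)
    rw [div_eq_mul_inv, div_eq_mul_inv]
    congr 2
    · push_cast; ring_nf
    · congr 1
      push_cast [Nat.cast_sub hj.le]
      ring
  have hH : ∑ j ∈ range m, ((j + 1 : ℝ))⁻¹ ≤ 1 + Real.log (m + 1 : ℕ) := by
    have h2 := harmonic_le_one_add_log m
    have h3 : ((harmonic m : ℚ) : ℝ) = ∑ j ∈ range m, ((j + 1 : ℝ))⁻¹ := by
      rw [harmonic]
      push_cast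
      rfl
    rw [h3] at h2
    refine h2.trans ?_
    rcases Nat.eq_zero_or_pos m with hm | hm
    · subst hm; simp
    · have h5 : Real.log (m : ℝ) ≤ Real.log ((m + 1 : ℕ) : ℝ) := by
        apply Real.log_le_log (by exact_mod_cast hm)
        push_cast; linarith
      linarith
  have hH2 : ∑ j ∈ range m, (((m - j : ℕ) : ℝ))⁻¹ = ∑ j ∈ range m, ((j + 1 : ℝ))⁻¹ := by
    rw [← Finset.sum_range_reflect (fun j => ((j + 1 : ℝ))⁻¹)]
    apply Finset.sum_congr rfl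
    intro j hj
    rw [mem_range] at hj
    congr 1
    have : m - j = (m - 1 - j) + 1 := by omega
    rw [this]
    push_cast
    ring
  calc _ ≤ ∑ j ∈ range m, (((m + 1 : ℕ) : ℝ) * ((j + 1 : ℝ))⁻¹ +
          ((m + 1 : ℕ) : ℝ) * (((m - j : ℕ) : ℝ))⁻¹) + ((m + 1 : ℕ) : ℝ) :=
        add_le_add (Finset.sum_le_sum hrest) hzero
    _ = ((m + 1 : ℕ) : ℝ) * (∑ j ∈ range m, ((j + 1 : ℝ))⁻¹ + ∑ j ∈ range m, ((j + 1 : ℝ))⁻¹ + 1) := by
        rw [Finset.sum_add_distrib, ← Finset.mul_sum, ← Finset.mul_sum, hH2]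
        ring
    _ ≤ ((m + 1 : ℕ) : ℝ) * (3 + 2 * Real.log ((m + 1 : ℕ) : ℝ)) := by
        apply mul_le_mul_of_nonneg_left _ (by positivity)
        linarith

end Run7.h805.EF
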